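import Pool.Agent.Y85.NSI.FT

/-!
# Induction of Cohen-Macaulay domains: the answer is negative for `SL_n` for every `n ≥ 2`

`Γ` is a group of matrices of size `N` over a field `k` (given by a homomorphism
`ι : Γ →* Matrix (Fin N) (Fin N) k`), `B` is a subgroup of `Γ` and `χ : B → k` is a character.
The hypotheses `Hyp ι B χ` are: the regular functions on `Γ` (the polynomials in the matrix
entries) form a domain, the regular functions invariant under right translation by `B` are
constant, `χ` is regular, and there are two linearly independent regular functions `f` on `Γ` with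
`f (g b) = χ(b)⁻¹ f(g)`. For a connected reductive group, a Borel subgroup and a suitable dominant
weight these are standard facts; for `SL_n` and the upper triangular matrices they are proved here
for every `n ≥ 2`.

Let `S ≠ ℕ` be a numerical semigroup, let `R = k[S]` (a Cohen-Macaulay domain of dimension one, for
example `k[t², t³]`), and let `B` act by `χⁿ` on `tⁿ`. Then `ind_B^Γ R = ⊕_{n ∈ S} H⁰(nχ)` is a
domain. Its localization at the irrelevant maximal ideal has dimension at least two, but every
regular sequence in its maximal ideal has length at most one. So it is not Cohen-Macaulay. For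
`SL_n` it is finitely generated: it is the ring of the polynomials in `n` variables whose
homogeneous components have degrees in `S`.

All definitions: `Pool/Agent/Y85/NSI/Base.lean` (`IsMorphism`, `BAlgebra`, `ind`, `nsr`, `Hyp`,
`SL`, `inc`, `borel`, `chi`), `Pool/Agent/H957R3/CM.lean` (`IsCohenMacaulayRing`), and below.
-/

set_option autoImplicit false

namespace Pool.Agent.Results.MP_271f8e_al.SemigroupInductionSLn

open Pool.Agent.Y85.NSI IsLocalRing
open Pool.Agent.H957R3.CM (IsCohenMacaulayRing)

universe u

/-- `S` is a numerical semigroup different from `ℕ`. -/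
def NumSemi (S : AddSubmonoid ℕ) : Prop := {n : ℕ | n ∉ S}.Finite ∧ S ≠ ⊤

/-- The ring `k[S]` is a finitely generated Cohen-Macaulay domain of dimension one. -/
def Nice (k : Type u) [Field k] (S : AddSubmonoid ℕ) : Prop :=
  IsDomain (nsr k S) ∧ Algebra.FiniteType k (nsr k S) ∧ ringKrullDim (nsr k S) = 1 ∧
    IsCohenMacaulayRing (nsr k S)

/-- The dimension of some localization at a prime ideal is at least two, but the regular sequences
in the maximal ideal of this localization have length at most one. -/
def DepthGap (D : Type u) [CommRing D] : Prop :=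
  ∃ (M : Ideal D) (_ : M.IsPrime), 2 ≤ ringKrullDim (Localization.AtPrime M) ∧
    ∀ rs : List (Localization.AtPrime M), (∀ r ∈ rs, r ∈ maximalIdeal (Localization.AtPrime M)) →
      RingTheory.Sequence.IsRegular (Localization.AtPrime M) rs → rs.length ≤ 1

section

variable {k : Type u} [Field k] {N : ℕ} {Γ : Type u} [Group Γ]
  {ι : Γ →* Matrix (Fin N) (Fin N) k} {B : Subgroup Γ}

/-- The action of `B` on `k[S]` is `b tⁿ = χ(b)ⁿ tⁿ`. -/
def Acts {S : AddSubmonoid ℕ} (χ : B →* k) (A : BAlgebra ι B (nsr k S)) : Prop :=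
  ∀ (b : B) (r : nsr k S) (n : ℕ), (A.act b r).1.coeff n = χ b ^ n * r.1.coeff n

/-- The induced algebra is a domain, it is not Cohen-Macaulay, and the reason is a localization of
dimension at least two without regular sequences of length two. -/
def Bad {S : AddSubmonoid ℕ} (A : BAlgebra ι B (nsr k S)) : Prop :=
  IsDomain (ind A) ∧ DepthGap (ind A) ∧ ¬ IsCohenMacaulayRing (ind A)

/-- The induced algebra is a finitely generated `k`-algebra. -/
def FinGen {S : AddSubmonoid ℕ} (A : BAlgebra ι B (nsr k S)) : Prop :=
  Algebra.FiniteType k (ind A)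

/-- The ring `k[S]` with the action of `B` by `χ` is a counterexample. -/
def Fails (ι : Γ →* Matrix (Fin N) (Fin N) k) (B : Subgroup Γ) (χ : B →* k)
    (S : AddSubmonoid ℕ) : Prop :=
  Nice k S ∧ ∃ A : BAlgebra ι B (nsr k S), Acts χ A ∧ Bad A

end

/-- For `SL_{m+2}` the ring `k[S]` is a counterexample with a finitely generated induced
algebra. -/
def FailsSL (k : Type u) [Field k] (m : ℕ) (S : AddSubmonoid ℕ) : Prop :=
  Nice k S ∧ ∃ A : BAlgebra (inc (m + 2) k) (borel (m + 2) k) (nsr k S),
    Acts (chi m k) A ∧ FinGen A ∧ Bad A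

theorem nice {k : Type u} [Field k] {S : AddSubmonoid ℕ} (e : ℕ) (hS : ∀ n, e < n → n ∈ S) :
    Nice k S :=
  ⟨nsr_domain, nsr_finiteType e hS, nsr_dim e hS, nsr_cm e hS⟩

theorem bad {k : Type u} [Field k] {N : ℕ} {Γ : Type u} [Group Γ]
    {ι : Γ →* Matrix (Fin N) (Fin N) k} {B : Subgroup Γ} {χ : B →* k} (H : Hyp ι B χ)
    {S : AddSubmonoid ℕ} (e : ℕ) (he : e ∉ S) (hS : ∀ n, e < n → n ∈ S) :
    Bad (alg ι B χ H.reg S) := by
  obtain ⟨h1, h2, h3⟩ := main (hχ := H.reg) H e he hS
  exact ⟨h1, ⟨mm ι B χ H.reg S, RingHom.ker_isPrime _, h2, h3⟩, not_cm (hχ := H.reg) H e he hS⟩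

/-- Let `S ≠ ℕ` be a numerical semigroup. (1) For every field `k`, every group of matrices `Γ`, every
subgroup `B` and every character `χ` with `Hyp ι B χ`, the ring `k[S]` with `b tⁿ = χ(b)ⁿ tⁿ` is a
Cohen-Macaulay `B`-algebra, a finitely generated domain of dimension one, and `ind_B^Γ k[S]` is a
domain which is not Cohen-Macaulay. (2) This holds in particular for `SL_n` and its Borel subgroup
of upper triangular matrices for every `n = m + 2 ≥ 2` and every infinite field `k` (with
`χ(b) = (b⁻¹)₀₀`), and then `ind_B^G k[S]` is moreover a finitely generated `k`-algebra. -/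
theorem result :
    (∀ (k : Type u) [Field k] (N : ℕ) (Γ : Type u) [Group Γ]
      (ι : Γ →* Matrix (Fin N) (Fin N) k) (B : Subgroup Γ) (χ : B →* k), Hyp ι B χ →
      ∀ S : AddSubmonoid ℕ, NumSemi S → Fails ι B χ S) ∧
    ∀ (k : Type u) [Field k] [Infinite k] (m : ℕ) (S : AddSubmonoid ℕ), NumSemi S →
      FailsSL k m S := by
  constructor
  · rintro k _ N Γ _ ι B χ H S ⟨hfin, hne⟩
    obtain ⟨e, he, hS⟩ := exists_gap hfin hne
    exact ⟨nice e hS, alg ι B χ H.reg S, fun b r n => cf_act0 (χ b) n r, bad H e he hS⟩
  · rintro k _ _ m S ⟨hfin, hne⟩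
    obtain ⟨e, he, hS⟩ := exists_gap hfin hne
    exact ⟨nice e hS, alg _ _ _ (hyp_sl m).reg S, fun b r n => cf_act0 (chi m k b) n r,
      finiteType e hS, bad (hyp_sl m) e he hS⟩

end Pool.Agent.Results.MP_271f8e_al.SemigroupInductionSLn
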